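import Pool.Agent.H4.PS.Defs
import Pool.Agent.H4.Q1.Final
import Pool.Agent.H81.Q1.Term

set_option autoImplicit false
open Set Topology MeasureTheory Filter ProbabilityTheory
open scoped unitInterval NNReal

/-! # The definitions of `H4/PS/Defs` and those of `H81/Q1`, `H82/Q1`, `H42/MJ` agree

The two spaces of curves are isometric, all other definitions have the same text. -/

namespace Pool.Agent.H4.PS

/-! ### Curves -/

lemma cdist_old (g₁ g₂ : Pool.Agent.H81.Q1.PCurve) :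
    cdist ⟨g₁.toC⟩ ⟨g₂.toC⟩ = Pool.Agent.H81.Q1.cdist g₁ g₂ := rfl

/-- The identification of the two spaces of curves. -/
noncomputable def cv (c : Pool.Agent.H81.Q1.Curve) : Curve :=
  SeparationQuotient.lift (X := Pool.Agent.H81.Q1.PCurve) (fun p => Curve.mk ⟨p.toC⟩)
    (fun p q h => by
      have h1 : dist p q = 0 := Metric.inseparable_iff.1 h
      have h2 : dist (⟨p.toC⟩ : PCurve) ⟨q.toC⟩ = 0 := h1
      exact SeparationQuotient.mk_eq_mk.2 (Metric.inseparable_iff.2 h2)) c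

lemma cv_mk (p : Pool.Agent.H81.Q1.PCurve) : cv (Pool.Agent.H81.Q1.Curve.mk p) = Curve.mk ⟨p.toC⟩ :=
  rfl

lemma isometry_cv : Isometry cv := by
  refine Isometry.of_dist_eq fun c c' => ?_
  obtain ⟨p, rfl⟩ := SeparationQuotient.surjective_mk c
  obtain ⟨q, rfl⟩ := SeparationQuotient.surjective_mk c'
  exact (SeparationQuotient.dist_mk (⟨p.toC⟩ : PCurve) ⟨q.toC⟩).trans
    (SeparationQuotient.dist_mk p q).symm

lemma continuous_cv : Continuous cv := isometry_cv.continuous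

lemma measurable_cv : Measurable cv := continuous_cv.measurable

/-! ### Discrete domains -/

/-- the same discrete domain, in the old definitions -/
def DDomain.old (X : DDomain) : Pool.Agent.H81.Q1.DDomain :=
  ⟨X.V, X.E, X.finV, X.subE, X.conn, X.noHole, X.α, X.β, X.memα, X.memβ, X.outα, X.outβ, X.ne⟩

/-- the same discrete domain, in the new definitions -/
def ofOld (X : Pool.Agent.H81.Q1.DDomain) : DDomain :=
  ⟨X.V, X.E, X.finV, X.subE, X.conn, X.noHole, X.α, X.β, X.memα, X.memβ, X.outα, X.outβ, X.ne⟩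

lemma old_ofOld (X : Pool.Agent.H81.Q1.DDomain) : (ofOld X).old = X := rfl

lemma next_old : next = Pool.Agent.H81.Q1.next := rfl

lemma wired_old (X : DDomain) : X.old.wired = X.wired := rfl

lemma dual_old (X : DDomain) : X.old.dual = X.dual := rfl

lemma free_old (X : DDomain) : X.old.free = X.free := rfl

lemma vertex_old (X : DDomain) (δ : ℝ) (ω : Set (Sym2 (ℤ × ℤ))) (i : ℕ) :
    X.old.vertex δ ω i = X.vertex δ ω i := by
  cases i <;> rfl

lemma len_old (X : DDomain) (ω : Set (Sym2 (ℤ × ℤ))) : X.old.len ω = X.len ω := rfl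

lemma explore_old (X : DDomain) (δ : ℝ) (ω : Set (Sym2 (ℤ × ℤ))) :
    cv (X.old.explore δ ω) = X.explore δ ω := by
  have h : X.old.vertex δ ω = X.vertex δ ω := funext (vertex_old X δ ω)
  unfold Pool.Agent.H81.Q1.DDomain.explore DDomain.explore
  rw [cv_mk, h]
  rfl

/-- **The exploration path reaches `β`.** -/
theorem corner_len (X : DDomain) {ω : Set (Sym2 (ℤ × ℤ))} (hω : ω ⊆ X.free) :
    X.corner ω (X.len ω) = X.β :=
  Pool.Agent.H81.Q1.corner_len X.old hω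

/-- The laws of the exploration path agree. -/
theorem law_old (X : DDomain) (δ : ℝ) :
    X.law δ = (X.old.law δ).map continuous_cv.aemeasurable := by
  apply Subtype.ext
  change ((halfPMF X.free X.finite_free).map (X.explore δ)).toMeasure =
    (((Pool.Agent.H81.Q1.halfPMF X.old.free X.old.finite_free).map (X.old.explore δ)).toMeasure).map cv
  rw [PMF.toMeasure_map _ _ measurable_cv, PMF.map_comp]
  have h : cv ∘ X.old.explore δ = X.explore δ := funext (explore_old X δ)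
  rw [h]
  rfl

/-! ### Components -/

lemma isComponent_old {D : Set ℂ} {δ : ℝ} {V : Set (ℤ × ℤ)} {E : Set (Sym2 (ℤ × ℤ))} :
    IsComponent D δ V E ↔ Pool.Agent.H42.MJ.IsComponent D δ V E :=
  ⟨fun h => ⟨h.sub, h.comp, h.edges⟩, fun h => ⟨h.sub, h.comp, h.edges⟩⟩

/-! ### Charts and approximating sequences -/

lemma isChart_old {D : Set ℂ} {a b : ℂ} {φ : ℂ → ℂ} :
    IsChart D a b φ ↔ Pool.Agent.H82.Q1.IsChart D a b φ :=
  ⟨fun h => ⟨h.diff, h.image, h.cont, h.inj, h.zero, h.infty, h.ne⟩,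
    fun h => ⟨h.diff, h.image, h.cont, h.inj, h.zero, h.infty, h.ne⟩⟩

/-- the same approximating sequence, in the old definitions -/
def Approx.old {D : Set ℂ} {a b : ℂ} {A₁ A₂ : Set ℂ} (A : Approx D a b A₁ A₂) :
    Pool.Agent.H81.Q1.Approx D a b A₁ A₂ where
  δ := A.δ
  X := fun n => (A.X n).old
  pos := A.pos
  lim := A.lim
  fill := A.fill
  sub := A.sub
  limα := A.limα
  limβ := A.limβ
  wired := A.wired
  dual := A.dual

/-! ### SLE -/

lemma isTrace_old {W : ℝ → ℝ} {η : ℝ → ℂ} (h : Pool.Agent.H82.Q1.IsTrace W η) : IsTrace W η :=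
  ⟨h.cont, h.mem, h.zero, h.hull⟩

/-- The laws of chordal SLE agree. -/
theorem isSLE_of_old {κ : ℝ} {D : Set ℂ} {a b : ℂ}
    {μ : ProbabilityMeasure Pool.Agent.H81.Q1.Curve} (h : Pool.Agent.H82.Q1.IsSLE κ D a b μ) :
    IsSLE κ D a b (μ.map continuous_cv.aemeasurable) := by
  intro φ hφ
  obtain ⟨Ω, m, P, hP, B, η, c, h1, h2, h3, h4, h5⟩ := h φ (isChart_old.1 hφ)
  refine ⟨Ω, m, P, hP, B, η, fun ω => ⟨(c ω).toC⟩, h1, ?_, ?_, ?_, ?_⟩
  · filter_upwards [h2] with ω hω using isTrace_old hω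
  · filter_upwards [h3] with ω hω using ⟨hω.1, hω.2⟩
  · exact measurable_cv.comp_aemeasurable h4
  · change P.map (fun ω => Curve.mk ⟨(c ω).toC⟩) = ((μ : Measure _).map cv)
    rw [← h5, AEMeasurable.map_map_of_aemeasurable measurable_cv.aemeasurable h4]
    rfl

/-! ### The final statements -/

/-- Convergence in the old space of curves gives convergence in the new one. -/
lemma tendsto_of_old {ν : ℕ → ProbabilityMeasure Pool.Agent.H81.Q1.Curve}
    {μ : ProbabilityMeasure Pool.Agent.H81.Q1.Curve} (h : Tendsto ν atTop (𝓝 μ)) :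
    Tendsto (fun n => (ν n).map continuous_cv.aemeasurable) atTop
      (𝓝 (μ.map continuous_cv.aemeasurable)) :=
  ProbabilityMeasure.tendsto_map_of_tendsto_of_continuous _ _ h continuous_cv

lemma both_old {D : Set ℂ} {a b : ℂ} {μ : ProbabilityMeasure Pool.Agent.H81.Q1.Curve}
    (h1 : ∀ (δ : ℕ → ℝ) (X : ℕ → Pool.Agent.H81.Q1.DDomain), (∀ n, 0 < δ n) →
      Tendsto δ atTop (𝓝 0) → (∀ n, Pool.Agent.H42.MJ.IsComponent D (δ n) (X n).V (X n).E) →
      Tendsto (fun n => Pool.Agent.H81.Q1.pt (δ n) (X n).α.1) atTop (𝓝 a) →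
      Tendsto (fun n => Pool.Agent.H81.Q1.pt (δ n) (X n).β.1) atTop (𝓝 b) →
      Tendsto (fun n => (X n).law (δ n)) atTop (𝓝 μ))
    (h2 : ∀ φ : ℂ → ℂ, Pool.Agent.H82.Q1.IsChart D a b φ →
      ∀ A : Pool.Agent.H81.Q1.Approx D a b (Pool.Agent.H82.Q1.posArc φ b)
        (Pool.Agent.H82.Q1.negArc φ b), Tendsto A.law atTop (𝓝 μ)) :
    (∀ (δ : ℕ → ℝ) (X : ℕ → DDomain), (∀ n, 0 < δ n) → Tendsto δ atTop (𝓝 0) →
      (∀ n, IsComponent D (δ n) (X n).V (X n).E) →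
      Tendsto (fun n => pt (δ n) (X n).α.1) atTop (𝓝 a) →
      Tendsto (fun n => pt (δ n) (X n).β.1) atTop (𝓝 b) →
      Tendsto (fun n => (X n).law (δ n)) atTop (𝓝 (μ.map continuous_cv.aemeasurable))) ∧
    ∀ φ : ℂ → ℂ, IsChart D a b φ → ∀ A : Approx D a b (posArc φ b) (negArc φ b),
      Tendsto (fun n => (A.X n).law (A.δ n)) atTop (𝓝 (μ.map continuous_cv.aemeasurable)) := by
  refine ⟨?_, ?_⟩
  · intro δ X pos lim hX limα limβ
    have h3 := tendsto_of_old (h1 δ (fun n => (X n).old) pos lim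
      (fun n => isComponent_old.1 (hX n)) limα limβ)
    exact h3.congr fun n => (law_old (X n) (δ n)).symm
  · intro φ hφ A
    have h3 := tendsto_of_old (h2 φ (isChart_old.1 hφ) A.old)
    exact h3.congr fun n => (law_old (A.X n) (A.δ n)).symm

lemma exists_new {D : Set ℂ} {a b : ℂ} (h : ∀ ε > 0, ∃ δ₀ > 0, ∀ δ : ℝ, 0 < δ → δ < δ₀ →
      ∃ X : Pool.Agent.H81.Q1.DDomain, Pool.Agent.H42.MJ.IsComponent D δ X.V X.E ∧
      (∀ V E, Pool.Agent.H42.MJ.IsComponent D δ V E → V.ncard ≤ X.V.ncard) ∧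
      dist (Pool.Agent.H81.Q1.pt δ X.α.1) a < ε ∧ dist (Pool.Agent.H81.Q1.pt δ X.β.1) b < ε) :
    ∀ ε > 0, ∃ δ₀ > 0, ∀ δ : ℝ, 0 < δ → δ < δ₀ → ∃ X : DDomain, IsComponent D δ X.V X.E ∧
      (∀ V E, IsComponent D δ V E → V.ncard ≤ X.V.ncard) ∧
      dist (pt δ X.α.1) a < ε ∧ dist (pt δ X.β.1) b < ε := by
  intro ε hε
  obtain ⟨δ₀, h0, h1⟩ := h ε hε
  refine ⟨δ₀, h0, fun δ hδ hδ0 => ?_⟩
  obtain ⟨X, h2, h3, h4, h5⟩ := h1 δ hδ hδ0
  exact ⟨ofOld X, isComponent_old.2 h2, fun V E hV => h3 V E (isComponent_old.1 hV), h4, h5⟩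

/-- **Convergence to SLE(6)**, in the definitions of `H4/PS/Defs`. -/
theorem final_of_q1sle (h : Pool.Agent.H82.Q1.Q1SLE) : ∀ D : Set ℂ, IsJordanDomain D →
    ∀ a ∈ frontier D, ∀ b ∈ frontier D, a ≠ b →
    (∃ φ : ℂ → ℂ, IsChart D a b φ) ∧
    (∀ ε > 0, ∃ δ₀ > 0, ∀ δ : ℝ, 0 < δ → δ < δ₀ → ∃ X : DDomain, IsComponent D δ X.V X.E ∧
      (∀ V E, IsComponent D δ V E → V.ncard ≤ X.V.ncard) ∧
      dist (pt δ X.α.1) a < ε ∧ dist (pt δ X.β.1) b < ε) ∧
    ∃ μ : ProbabilityMeasure Curve, IsSLE 6 D a b μ ∧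
      (∀ (δ : ℕ → ℝ) (X : ℕ → DDomain), (∀ n, 0 < δ n) → Tendsto δ atTop (𝓝 0) →
        (∀ n, IsComponent D (δ n) (X n).V (X n).E) →
        Tendsto (fun n => pt (δ n) (X n).α.1) atTop (𝓝 a) →
        Tendsto (fun n => pt (δ n) (X n).β.1) atTop (𝓝 b) →
        Tendsto (fun n => (X n).law (δ n)) atTop (𝓝 μ)) ∧
      ∀ φ : ℂ → ℂ, IsChart D a b φ → ∀ A : Approx D a b (posArc φ b) (negArc φ b),
        Tendsto (fun n => (A.X n).law (A.δ n)) atTop (𝓝 μ) := by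
  intro D hD a ha b hb hab
  obtain ⟨⟨φ, hφ⟩, h1, μ, h2, h3, h4⟩ := Pool.Agent.H4.Q1.final_of_q1sle h D hD a ha b hb hab
  exact ⟨⟨φ, isChart_old.2 hφ⟩, exists_new h1, μ.map continuous_cv.aemeasurable, isSLE_of_old h2,
    both_old h3 h4⟩

/-- **Convergence**, in the definitions of `H4/PS/Defs`. -/
theorem final_of_q1 (h : Pool.Agent.H81.Q1.Q1) : ∀ D : Set ℂ, IsJordanDomain D →
    ∀ a ∈ frontier D, ∀ b ∈ frontier D, a ≠ b →
    (∃ φ : ℂ → ℂ, IsChart D a b φ) ∧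
    (∀ ε > 0, ∃ δ₀ > 0, ∀ δ : ℝ, 0 < δ → δ < δ₀ → ∃ X : DDomain, IsComponent D δ X.V X.E ∧
      (∀ V E, IsComponent D δ V E → V.ncard ≤ X.V.ncard) ∧
      dist (pt δ X.α.1) a < ε ∧ dist (pt δ X.β.1) b < ε) ∧
    ∃ μ : ProbabilityMeasure Curve,
      (∀ (δ : ℕ → ℝ) (X : ℕ → DDomain), (∀ n, 0 < δ n) → Tendsto δ atTop (𝓝 0) →
        (∀ n, IsComponent D (δ n) (X n).V (X n).E) →
        Tendsto (fun n => pt (δ n) (X n).α.1) atTop (𝓝 a) →
        Tendsto (fun n => pt (δ n) (X n).β.1) atTop (𝓝 b) →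
        Tendsto (fun n => (X n).law (δ n)) atTop (𝓝 μ)) ∧
      ∀ φ : ℂ → ℂ, IsChart D a b φ → ∀ A : Approx D a b (posArc φ b) (negArc φ b),
        Tendsto (fun n => (A.X n).law (A.δ n)) atTop (𝓝 μ) := by
  intro D hD a ha b hb hab
  obtain ⟨⟨φ, hφ⟩, h1, μ, h3, h4⟩ := Pool.Agent.H4.Q1.final_of_q1 h D hD a ha b hb hab
  exact ⟨⟨φ, isChart_old.2 hφ⟩, exists_new h1, μ.map continuous_cv.aemeasurable, both_old h3 h4⟩

end Pool.Agent.H4.PS
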