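import Mathlib

set_option autoImplicit false
open Set Topology MeasureTheory Filter ProbabilityTheory
open scoped unitInterval NNReal

/-! # The exploration path of critical bond percolation on `δℤ²` and chordal SLE: all definitions

This file contains all the definitions used in the statement of the scaling limit of the exploration
path (problem MP_fe58d8_pr), in the order of the problem file:

* curves modulo increasing reparametrisation, with their distance;
* bounded Jordan domains;
* the lattice, discrete domains `(D_δ, a_δ, b_δ)`, Dobrushin boundary condition, exploration path and its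
  law at `p = 1/2`;
* the components of the part of `δℤ²` in `D`, and general approximating sequences;
* conformal charts, the Loewner equation, chordal `SLE_κ` in `(D, a, b)`. -/

namespace Pool.Agent.H4.PS

/-! ## Curves -/

/-- Parametrised curves: continuous maps `[0,1] → ℂ`. -/
structure PCurve where
  /-- the underlying continuous map -/
  toC : C(I, ℂ)

/-- Increasing reparametrisations of `[0,1]` (order isomorphisms, hence homeomorphisms). -/
abbrev Rep := I ≃o I

/-- `sup_t |γ₁ (u₁ t) - γ₂ (u₂ t)|`. -/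
noncomputable def supd (g₁ g₂ : PCurve) (u : Rep × Rep) : ℝ :=
  ⨆ t : I, dist (g₁.toC (u.1 t)) (g₂.toC (u.2 t))

/-- The distance `d (γ₁, γ₂) = inf over (u₁, u₂) of sup_t |γ₁ (u₁ t) - γ₂ (u₂ t)|`. -/
noncomputable def cdist (g₁ g₂ : PCurve) : ℝ := ⨅ u : Rep × Rep, supd g₁ g₂ u

/-! `cdist` is a pseudometric. -/

/-- A reparametrised curve. -/
noncomputable def rep (g : C(I, ℂ)) (u : Rep) : C(I, ℂ) :=
  ⟨fun t => g (u t), g.continuous.comp u.continuous⟩

lemma supd_eq (g₁ g₂ : PCurve) (u : Rep × Rep) :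
    supd g₁ g₂ u = dist (rep g₁.toC u.1) (rep g₂.toC u.2) := by
  rw [ContinuousMap.dist_eq_iSup]
  rfl

lemma supd_nonneg (g₁ g₂ : PCurve) (u : Rep × Rep) : 0 ≤ supd g₁ g₂ u := by
  rw [supd_eq]; exact dist_nonneg

lemma bdd_below (g₁ g₂ : PCurve) : BddBelow (Set.range fun u : Rep × Rep => supd g₁ g₂ u) :=
  ⟨0, by rintro _ ⟨u, rfl⟩; exact supd_nonneg g₁ g₂ u⟩

lemma supd_rep (g₁ g₂ : PCurve) (u : Rep × Rep) (w : Rep) :
    supd g₁ g₂ (w.trans u.1, w.trans u.2) = supd g₁ g₂ u := by
  unfold supd
  exact (w.toEquiv.iSup_comp (g := fun t => dist (g₁.toC (u.1 t)) (g₂.toC (u.2 t))))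

theorem cdist_self (g : PCurve) : cdist g g = 0 := by
  apply le_antisymm
  · refine (ciInf_le (bdd_below g g) (OrderIso.refl I, OrderIso.refl I)).trans ?_
    rw [supd_eq]; simp
  · exact le_ciInf fun u => supd_nonneg g g u

theorem cdist_comm (g₁ g₂ : PCurve) : cdist g₁ g₂ = cdist g₂ g₁ := by
  unfold cdist
  refine (Equiv.prodComm Rep Rep).iInf_congr ?_
  intro u
  simp only [Equiv.prodComm_apply, supd_eq, Prod.fst_swap, Prod.snd_swap]
  exact dist_comm _ _

theorem cdist_triangle (g₁ g₂ g₃ : PCurve) : cdist g₁ g₃ ≤ cdist g₁ g₂ + cdist g₂ g₃ := by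
  refine le_of_forall_pos_le_add fun ε hε => ?_
  obtain ⟨u, hu⟩ := exists_lt_of_ciInf_lt (show cdist g₁ g₂ < cdist g₁ g₂ + ε / 2 by linarith)
  obtain ⟨v, hv⟩ := exists_lt_of_ciInf_lt (show cdist g₂ g₃ < cdist g₂ g₃ + ε / 2 by linarith)
  set w : Rep := u.2.trans v.1.symm
  have h1 : supd g₂ g₃ (w.trans v.1, w.trans v.2) = supd g₂ g₃ v := supd_rep g₂ g₃ v w
  have h2 : w.trans v.1 = u.2 := by
    ext t; simp [w]
  have h3 : supd g₁ g₃ (u.1, w.trans v.2) ≤ supd g₁ g₂ u + supd g₂ g₃ v := by
    rw [← h1, supd_eq, supd_eq, supd_eq, h2]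
    exact dist_triangle _ _ _
  have h4 : cdist g₁ g₃ ≤ supd g₁ g₃ (u.1, w.trans v.2) := ciInf_le (bdd_below g₁ g₃) _
  linarith

theorem edist_eq (g₁ g₂ : PCurve) : ENNReal.ofReal (cdist g₁ g₂) = ENNReal.ofReal (cdist g₁ g₂) := rfl

noncomputable instance : PseudoMetricSpace PCurve where
  dist := cdist
  dist_self := cdist_self
  dist_comm := cdist_comm
  dist_triangle := cdist_triangle
  edist g₁ g₂ := ENNReal.ofReal (cdist g₁ g₂)
  edist_dist := edist_eq

/-- **The space of curves** modulo increasing reparametrisation: the parametrised curves, two of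
them being identified when their distance `d` is `0`; it is a metric space with the distance `d`
(Mathlib's separation quotient of a pseudometric space). -/
abbrev Curve : Type := SeparationQuotient PCurve

/-- The curve of a parametrised curve. -/
noncomputable def Curve.mk (g : PCurve) : Curve := SeparationQuotient.mk g

noncomputable instance : MeasurableSpace Curve := borel Curve
instance : BorelSpace Curve := ⟨rfl⟩

/-! ## Jordan domains -/

/-- `D` is a bounded Jordan domain: a bounded connected open set whose boundary is the image of a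
Jordan curve. -/
def IsJordanDomain (D : Set ℂ) : Prop :=
  IsOpen D ∧ IsConnected D ∧ Bornology.IsBounded D ∧
    ∃ J : Circle → ℂ, Continuous J ∧ Function.Injective J ∧ frontier D = Set.range J

/-! ## The lattice -/

/-- Nearest-neighbour graph of `ℤ²`. -/
def Z2 : SimpleGraph (ℤ × ℤ) where
  Adj u v := |u.1 - v.1| + |u.2 - v.2| = 1
  symm := ⟨fun u v h => by rw [abs_sub_comm v.1, abs_sub_comm v.2]; exact h⟩
  loopless := ⟨fun u h => by simp at h⟩

/-- The point of `δℤ²` with index `v`. -/
def pt (δ : ℝ) (v : ℤ × ℤ) : ℂ := ⟨δ * v.1, δ * v.2⟩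

/-- The four directions: `0` east, `1` north, `2` west, `3` south. -/
def dir (q : ZMod 4) : ℤ × ℤ :=
  if q = 0 then (1, 0) else if q = 1 then (0, 1) else if q = 2 then (-1, 0) else (0, -1)

/-- A corner `(v, q)`: the vertex `v` together with the unit square (face) at `v` between the
directions `q` and `q + 1`. The corners are the edges of the medial lattice: `(v, q)` joins the
midpoints of the two edges of `ℤ²` which leave `v` in the directions `q` and `q + 1`. -/
abbrev Corner := (ℤ × ℤ) × ZMod 4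

/-- The edge of `ℤ²` leaving the vertex of the corner `(v, q)` in direction `q`. -/
def Corner.edge (c : Corner) : Sym2 (ℤ × ℤ) := s(c.1, c.1 + dir c.2)

/-- The face (unit square, represented by its lower left vertex) of the corner `(v, q)`. -/
def Corner.face (c : Corner) : ℤ × ℤ :=
  if c.2 = 0 then c.1 else if c.2 = 1 then (c.1.1 - 1, c.1.2)
  else if c.2 = 2 then (c.1.1 - 1, c.1.2 - 1) else (c.1.1, c.1.2 - 1)

/-- One step of an interface with open edges (the set `ω`) on its right: at the corner `(v, q)`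
(in which the interface runs clockwise around `v`, from the edge in direction `q + 1` to the edge in
direction `q`) the interface meets the edge in direction `q`. If this edge is closed, it continues
around `v`; if it is open, it follows the edge to its other end. -/
noncomputable def next (ω : Set (Sym2 (ℤ × ℤ))) (c : Corner) : Corner :=
  open Classical in if c.edge ∈ ω then (c.1 + dir c.2, c.2 + 1) else (c.1, c.2 - 1)

/-- The nearest-neighbour edges with both ends in `V`. -/
def edges (V : Set (ℤ × ℤ)) : Set (Sym2 (ℤ × ℤ)) := {e | e ∈ Z2.edgeSet ∧ ∀ v ∈ e, v ∈ V}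

/-- Two neighbouring faces whose common edge is not in `E`. -/
def faceStep (E : Set (Sym2 (ℤ × ℤ))) (f g : ℤ × ℤ) : Prop :=
  (g = (f.1 + 1, f.2) ∧ s((f.1 + 1, f.2), (f.1 + 1, f.2 + 1)) ∉ E) ∨
  (g = (f.1 - 1, f.2) ∧ s((f.1, f.2), (f.1, f.2 + 1)) ∉ E) ∨
  (g = (f.1, f.2 + 1) ∧ s((f.1, f.2 + 1), (f.1 + 1, f.2 + 1)) ∉ E) ∨
  (g = (f.1, f.2 - 1) ∧ s((f.1, f.2), (f.1 + 1, f.2)) ∉ E)

/-- The face of the corner `c` is joined to infinity by a chain of faces crossing no edge of
`E`: `c` is a corner of the outer boundary. -/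
def IsOuter (E : Set (Sym2 (ℤ × ℤ))) (c : Corner) : Prop :=
  ∀ n : ℤ, ∃ g, Relation.ReflTransGen (faceStep E) c.face g ∧ n ≤ |g.1| + |g.2|

/-! ## Discrete domains, Dobrushin boundary condition, exploration path -/

/-- A (simply connected) discrete domain with two marked boundary corners: a finite connected
subgraph `(V, E)` of `ℤ²` without holes and two corners of its outer boundary at distinct vertices,
`α` (where the exploration path starts, `a_δ = α.1`) and `β` (where it ends, `b_δ = β.1`). -/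
structure DDomain where
  /-- vertices -/
  V : Set (ℤ × ℤ)
  /-- edges -/
  E : Set (Sym2 (ℤ × ℤ))
  finV : V.Finite
  subE : E ⊆ edges V
  conn : ∀ u ∈ V, ∀ v ∈ V, Relation.ReflTransGen (fun x y => s(x, y) ∈ E) u v
  /-- no holes: every edge of `ℤ²` at a vertex of the domain which is not an edge of the domain lies
  on the outer boundary -/
  noHole : ∀ c : Corner, c.1 ∈ V → c.edge ∉ E → IsOuter E c
  /-- corner at `a_δ` -/
  α : Corner
  /-- corner at `b_δ` -/
  β : Corner
  memα : α.1 ∈ V
  memβ : β.1 ∈ V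
  outα : IsOuter E α
  outβ : IsOuter E β
  ne : α.1 ≠ β.1

namespace DDomain
variable (X : DDomain)

/-- The corners of the outer boundary contour from `β` to `α`, clockwise (the domain is on the
right), i.e. along the counterclockwise boundary arc from `a_δ` to `b_δ`. -/
def wired : Set Corner :=
  {c | ∃ i : ℕ, (∀ j < i, (next X.E)^[j] X.β ≠ X.α) ∧ c = (next X.E)^[i] X.β}

/-- The corners of the outer boundary contour from `α` to `β`, clockwise. -/
def dual : Set Corner :=
  {c | ∃ i : ℕ, (∀ j < i, (next X.E)^[j] X.α ≠ X.β) ∧ c = (next X.E)^[i] X.α}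

/-- The edges of the counterclockwise boundary arc from `a_δ` to `b_δ` (declared open):
the edges of the domain met by the outer contour between `β` and `α`. -/
def arc : Set (Sym2 (ℤ × ℤ)) := {e | e ∈ X.E ∧ ∃ c ∈ X.wired, c ≠ X.α ∧ e = c.edge}

/-- The remaining edges, which are sampled at `p = 1/2`. -/
def free : Set (Sym2 (ℤ × ℤ)) := X.E \ X.arc

/-- The corners of the exploration path in the configuration `ω ⊆ free`: all edges of the
counterclockwise arc are open, and the edges of `ℤ²` which are not edges of the domain are closed,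
so that the dual edges along the complementary arc are dual-open. -/
noncomputable def corner (ω : Set (Sym2 (ℤ × ℤ))) (i : ℕ) : Corner := (next (ω ∪ X.arc))^[i] X.α

/-- Number of steps of the exploration path: it stops at the corner `β` (which it reaches for every
`ω ⊆ free`: theorem `corner_len` in `H4/PS/Bridge`). -/
noncomputable def len (ω : Set (Sym2 (ℤ × ℤ))) : ℕ := sInf {i | X.corner ω i = X.β}

/-- Midpoint of the edge leaving `v` in direction `q`, in the plane, at mesh `δ`. -/
noncomputable def mid (δ : ℝ) (v : ℤ × ℤ) (q : ZMod 4) : ℂ := (pt δ v + pt δ (v + dir q)) / 2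

/-- The vertices of the medial lattice visited by the exploration path, at mesh `δ`: the midpoint
before the first corner, then the midpoint after every corner. -/
noncomputable def vertex (δ : ℝ) (ω : Set (Sym2 (ℤ × ℤ))) : ℕ → ℂ
  | 0 => mid δ X.α.1 (X.α.2 + 1)
  | i + 1 => mid δ (X.corner ω i).1 (X.corner ω i).2

end DDomain

/-- The polygonal line through `p 0, p 1, …, p n` (constant speed in the index):
`t ↦ p 0 + ∑_{i<n} min 1 (max 0 (n t - i)) (p (i+1) - p i)`. -/
noncomputable def polyline (p : ℕ → ℂ) (n : ℕ) : PCurve :=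
  ⟨⟨fun t => p 0 + ∑ i ∈ Finset.range n,
      ((min 1 (max 0 ((n : ℝ) * (t : ℝ) - i)) : ℝ) : ℂ) * (p (i + 1) - p i), by fun_prop⟩⟩

/-- The uniform probability measure on the subsets of a finite set `E` (each element is chosen with
probability `1/2`, independently), as a distribution on sets. -/
noncomputable def halfPMF {ι : Type} (E : Set ι) (hE : E.Finite) : PMF (Set ι) :=
  (PMF.uniformOfFinset (open Classical in hE.toFinset.powerset)
    ⟨∅, by simp⟩).map (fun s : Finset ι => (s : Set ι))

lemma finite_edges {V : Set (ℤ × ℤ)} (hV : V.Finite) : (edges V).Finite := by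
  have h1 : edges V ⊆ (fun p : (ℤ × ℤ) × (ℤ × ℤ) => s(p.1, p.2)) '' (V ×ˢ V) := by
    intro e he
    induction e using Sym2.ind with
    | _ u v =>
      exact ⟨(u, v), ⟨he.2 u (by simp), he.2 v (by simp)⟩, rfl⟩
  exact ((hV.prod hV).image _).subset h1

namespace DDomain
variable (X : DDomain)

lemma finite_free : X.free.Finite :=
  (finite_edges X.finV).subset (Set.sdiff_subset.trans X.subE)

/-- **The exploration path** `γ_δ` as a curve. -/
noncomputable def explore (δ : ℝ) (ω : Set (Sym2 (ℤ × ℤ))) : Curve :=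
  Curve.mk (polyline (X.vertex δ ω) (X.len ω + 1))

/-- **The law of `γ_δ`**: image of the product of fair coins on the free edges. -/
noncomputable def law (δ : ℝ) : ProbabilityMeasure Curve :=
  ⟨((halfPMF X.free X.finite_free).map (X.explore δ)).toMeasure, inferInstance⟩

end DDomain

/-! ## The part of `δℤ²` in `D` -/

/-- The graph on `ℤ²` whose edges are the nearest-neighbour edges `{u, v}` for which the segment
from `δ u` to `δ v` is contained in `D`. -/
def inside (D : Set ℂ) (δ : ℝ) : SimpleGraph (ℤ × ℤ) where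
  Adj u v := Z2.Adj u v ∧ segment ℝ (pt δ u) (pt δ v) ⊆ D
  symm := ⟨fun u v h => ⟨h.1.symm, by rw [segment_symm]; exact h.2⟩⟩
  loopless := ⟨fun u h => Z2.loopless.irrefl u h.1⟩

/-- `(V, E)` is a connected component of the part of `δℤ²` in `D` (the vertices in `D` and the
nearest-neighbour edges contained in `D`). -/
structure IsComponent (D : Set ℂ) (δ : ℝ) (V : Set (ℤ × ℤ)) (E : Set (Sym2 (ℤ × ℤ))) : Prop where
  sub : ∀ v ∈ V, pt δ v ∈ D
  comp : ∀ u ∈ V, ∀ v, v ∈ V ↔ (inside D δ).Reachable u v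
  edges : ∀ u v, s(u, v) ∈ E ↔ u ∈ V ∧ (inside D δ).Adj u v

/-! ## Charts -/

/-- The open upper half plane. -/
def HH : Set ℂ := {z | 0 < z.im}

/-- The closed upper half plane. -/
def cHH : Set ℂ := {z | 0 ≤ z.im}

/-- `φ` is a conformal map from `ℍ` onto `D`, extended to a homeomorphism from `closure ℍ ∪ {∞}`
onto the closure of `D`, with `φ 0 = a`, `φ ∞ = b`. -/
structure IsChart (D : Set ℂ) (a b : ℂ) (φ : ℂ → ℂ) : Prop where
  diff : DifferentiableOn ℂ φ HH
  image : φ '' HH = D
  cont : ContinuousOn φ cHH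
  inj : InjOn φ cHH
  zero : φ 0 = a
  infty : Tendsto φ (Bornology.cobounded ℂ ⊓ 𝓟 cHH) (𝓝 b)
  ne : b ∉ φ '' cHH

/-- The counterclockwise boundary arc of `D` from `a` to `b`: the image of `[0, ∞]`. -/
def posArc (φ : ℂ → ℂ) (b : ℂ) : Set ℂ := insert b (φ '' {z | z.im = 0 ∧ 0 ≤ z.re})

/-- The clockwise boundary arc of `D` from `a` to `b`: the image of `[-∞, 0]`. -/
def negArc (φ : ℂ → ℂ) (b : ℂ) : Set ℂ := insert b (φ '' {z | z.im = 0 ∧ z.re ≤ 0})

/-! ## General approximating sequences -/

/-- **Approximating sequences** of `(D; a, b)`: meshes `δ n → 0` and discrete domains `X n` which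
fill every compact part of `D`, are contained in every neighbourhood of the closure of `D`, whose
marked vertices converge to `a` and `b`, and whose two boundary arcs converge to the two boundary
arcs `A₁` (wired) and `A₂` (dual) of `D`. -/
structure Approx (D : Set ℂ) (a b : ℂ) (A₁ A₂ : Set ℂ) where
  δ : ℕ → ℝ
  X : ℕ → DDomain
  pos : ∀ n, 0 < δ n
  lim : Tendsto δ atTop (𝓝 0)
  /-- every compact subset of `D` is filled by `X n` -/
  fill : ∀ K : Set ℂ, IsCompact K → K ⊆ D → ∀ᶠ n in atTop,
    (∀ v, pt (δ n) v ∈ K → v ∈ (X n).V) ∧ edges {v | pt (δ n) v ∈ K} ⊆ (X n).E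
  /-- `X n` is contained in every neighbourhood of `D` -/
  sub : ∀ ε > 0, ∀ᶠ n in atTop, ∀ v ∈ (X n).V, Metric.infDist (pt (δ n) v) D < ε
  limα : Tendsto (fun n => pt (δ n) (X n).α.1) atTop (𝓝 a)
  limβ : Tendsto (fun n => pt (δ n) (X n).β.1) atTop (𝓝 b)
  wired : ∀ ε > 0, ∀ᶠ n in atTop, ∀ c ∈ (X n).wired, Metric.infDist (pt (δ n) c.1) A₁ < ε
  dual : ∀ ε > 0, ∀ᶠ n in atTop, ∀ c ∈ (X n).dual, Metric.infDist (pt (δ n) c.1) A₂ < ε

/-! ## Chordal SLE -/

/-- `t < τ_z`: the solution of `∂_s g_s(z) = 2 / (g_s(z) - W_s)`, `g_0(z) = z` exists on `[0,t]` and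
`g_s(z) - W_s` does not vanish on `[0,t]`. -/
def NotSwallowed (W : ℝ → ℝ) (t : ℝ) (z : ℂ) : Prop :=
  ∃ g : ℝ → ℂ, g 0 = z ∧ ∀ s ∈ Icc 0 t,
    g s ≠ W s ∧ HasDerivWithinAt g (2 / (g s - W s)) (Icc 0 t) s

/-- The union of the unbounded components of `ℍ \ K` (there is exactly one if `K` is compact). -/
def outerDom (K : Set ℂ) : Set ℂ :=
  {z | z ∈ HH \ K ∧ ¬ Bornology.IsBounded (connectedComponentIn (HH \ K) z)}

/-- The Loewner chain driven by `W` is **generated by the curve** `η : [0,∞) → closure ℍ`, its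
trace: `η` is continuous, `η 0 = 0` and for every `t ≥ 0` the set `{z ∈ ℍ : τ_z > t}` is the
unbounded component of `ℍ \ η[0,t]`. -/
structure IsTrace (W : ℝ → ℝ) (η : ℝ → ℂ) : Prop where
  cont : ContinuousOn η (Ici 0)
  mem : ∀ t, 0 ≤ t → η t ∈ cHH
  zero : η 0 = 0
  hull : ∀ t, 0 ≤ t → {z | z ∈ HH ∧ NotSwallowed W t z} = outerDom (η '' Icc 0 t)

/-- The parametrised curve `c` is `t ↦ φ (η (t / (1 - t)))` on `[0,1)`, with end point `b`. -/
def IsImage (φ : ℂ → ℂ) (b : ℂ) (η : ℝ → ℂ) (c : PCurve) : Prop :=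
  (∀ t : I, (t : ℝ) < 1 → c.toC t = φ (η ((t : ℝ) / (1 - t)))) ∧ c.toC 1 = b

/-- **Chordal `SLE_κ` in `(D, a, b)`**: `μ` is the law of the image of the trace of the Loewner
chain driven by `√κ B`, `B` a standard Brownian motion, under a conformal map `φ : ℍ → D` with
`φ 0 = a`, `φ ∞ = b`, as a curve modulo reparametrisation. (For every such `φ`.) -/
def IsSLE (κ : ℝ) (D : Set ℂ) (a b : ℂ) (μ : ProbabilityMeasure Curve) : Prop :=
  ∀ φ : ℂ → ℂ, IsChart D a b φ →
    ∃ (Ω : Type) (_ : MeasurableSpace Ω) (P : Measure Ω) (_ : IsProbabilityMeasure P)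
      (B : ℝ≥0 → Ω → ℝ) (η : Ω → ℝ → ℂ) (c : Ω → PCurve),
      IsBrownianReal B P ∧
      (∀ᵐ ω ∂P, IsTrace (fun t => √κ * B t.toNNReal ω) (η ω)) ∧
      (∀ᵐ ω ∂P, IsImage φ b (η ω) (c ω)) ∧
      AEMeasurable (fun ω => Curve.mk (c ω)) P ∧
      P.map (fun ω => Curve.mk (c ω)) = μ

end Pool.Agent.H4.PS
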