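import Pool.Agent.H4.PS.Defs

set_option autoImplicit false
open Set Topology MeasureTheory Filter

/-! # The largest component of the vertices of `δℤ²` in `D` for nearest-neighbour adjacency -/

namespace Pool.Agent.H4.PS

/-- Nearest-neighbour adjacency of the vertices of `δℤ²` in `D` (the edge itself may leave `D`). -/
def vertexGraph (D : Set ℂ) (δ : ℝ) : SimpleGraph (ℤ × ℤ) where
  Adj u v := Z2.Adj u v ∧ pt δ u ∈ D ∧ pt δ v ∈ D
  symm := ⟨fun _ _ h => ⟨h.1.symm, h.2.2, h.2.1⟩⟩
  loopless := ⟨fun u h => Z2.loopless.irrefl u h.1⟩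

/-- `V` is a connected component, for the nearest-neighbour adjacency of `δℤ²`, of the set of the
vertices of `δℤ²` in `D`. -/
structure IsVertexComponent (D : Set ℂ) (δ : ℝ) (V : Set (ℤ × ℤ)) : Prop where
  sub : ∀ v ∈ V, pt δ v ∈ D
  comp : ∀ u ∈ V, ∀ v, v ∈ V ↔ (vertexGraph D δ).Reachable u v

/-- A horizontal, vertical or diagonal step from `u` to a point `w` which is not in `V`. -/
def kingStep (V : Set (ℤ × ℤ)) (u w : ℤ × ℤ) : Prop :=
  w ∉ V ∧ |u.1 - w.1| ≤ 1 ∧ |u.2 - w.2| ≤ 1

/-- `v` is not in `V` and is joined to infinity by such steps. -/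
def Escapes (V : Set (ℤ × ℤ)) (v : ℤ × ℤ) : Prop :=
  v ∉ V ∧ ∀ n : ℤ, ∃ w, Relation.ReflTransGen (kingStep V) v w ∧ n ≤ |w.1| + |w.2|

/-- `V` together with its holes (the vertices enclosed by `V`). -/
def fillHoles (V : Set (ℤ × ℤ)) : Set (ℤ × ℤ) := {v | ¬ Escapes V v}

/-- The vertices of `X` are those of the component `D_δ` of the vertices of `δℤ²` in `D` (for
nearest-neighbour adjacency) which has the most vertices, its holes, if there are any, being filled;
the edges of `X` are all nearest-neighbour edges between its vertices. -/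
def IsLargest (D : Set ℂ) (δ : ℝ) (X : DDomain) : Prop :=
  ∃ V : Set (ℤ × ℤ), IsVertexComponent D δ V ∧
    (∀ V', IsVertexComponent D δ V' → V'.ncard ≤ V.ncard) ∧ X.V = fillHoles V ∧ X.E = edges X.V

end Pool.Agent.H4.PS
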