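import Pool.Agent.H4.PS.Unique
import Pool.Agent.H12.Q1.Uniq

set_option autoImplicit false
open Set Topology MeasureTheory Filter ProbabilityTheory

/-! # The final statement, from `Q1SLE` -/

namespace Pool.Agent.H4.PS

/-- Uniqueness of the law of chordal SLE (helper12's theorem, transported). -/
theorem isSLE_unique {κ : ℝ} (hκ : 0 < κ) {D : Set ℂ} {a b : ℂ} {φ : ℂ → ℂ}
    (hφ : IsChart D a b φ) {μ ν : ProbabilityMeasure Curve} (hμ : IsSLE κ D a b μ)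
    (hν : IsSLE κ D a b ν) : ν = μ :=
  unique_of_old (fun _ _ h h' => Pool.Agent.H12.Q1.isSLE_unique hκ (isChart_old.1 hφ) h h') hμ hν

/-- **The scaling limit of the exploration path of critical bond percolation on `ℤ²` is chordal
SLE(6)**: for every bounded Jordan domain `D` and distinct boundary points `a`, `b`. -/
theorem final (h : Pool.Agent.H82.Q1.Q1SLE) : ∀ D : Set ℂ, IsJordanDomain D →
    ∀ a ∈ frontier D, ∀ b ∈ frontier D, a ≠ b →
    (∃ φ : ℂ → ℂ, IsChart D a b φ) ∧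
    (∀ ε > 0, ∃ δ₀ > 0, ∀ δ : ℝ, 0 < δ → δ < δ₀ → ∃ X : DDomain, IsComponent D δ X.V X.E ∧
      (∀ V E, IsComponent D δ V E → V.ncard ≤ X.V.ncard) ∧
      dist (pt δ X.α.1) a < ε ∧ dist (pt δ X.β.1) b < ε) ∧
    ∃ μ : ProbabilityMeasure Curve, IsSLE 6 D a b μ ∧ (∀ ν, IsSLE 6 D a b ν → ν = μ) ∧
      (∀ (δ : ℕ → ℝ) (X : ℕ → DDomain), (∀ n, 0 < δ n) → Tendsto δ atTop (𝓝 0) →
        (∀ n, IsComponent D (δ n) (X n).V (X n).E) →
        Tendsto (fun n => pt (δ n) (X n).α.1) atTop (𝓝 a) →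
        Tendsto (fun n => pt (δ n) (X n).β.1) atTop (𝓝 b) →
        Tendsto (fun n => (X n).law (δ n)) atTop (𝓝 μ)) ∧
      ∀ φ : ℂ → ℂ, IsChart D a b φ → ∀ A : Approx D a b (posArc φ b) (negArc φ b),
        Tendsto (fun n => (A.X n).law (A.δ n)) atTop (𝓝 μ) := by
  intro D hD a ha b hb hab
  obtain ⟨⟨φ, hφ⟩, h1, μ, h2, h3, h4⟩ := final_of_q1sle h D hD a ha b hb hab
  exact ⟨⟨φ, hφ⟩, h1, μ, h2, fun ν hν => isSLE_unique (by norm_num) hφ h2 hν, h3, h4⟩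

end Pool.Agent.H4.PS
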