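import Pool.Agent.H4.PS.Final
import Pool.Agent.H4.PS.Defs2
import Pool.Agent.H4.Lit.Glue

set_option autoImplicit false
open Set Topology MeasureTheory Filter ProbabilityTheory

/-! # The final statement with the clause on the vertex component -/

namespace Pool.Agent.H4.PS

lemma isLargest_old {D : Set ℂ} {δ : ℝ} {X : DDomain} (h : IsLargest D δ X) :
    Pool.Agent.H4.Lit.IsBig D δ X.old := by
  obtain ⟨V, h1, h2, h3, h4⟩ := h
  exact ⟨V, ⟨h1.sub, h1.comp⟩, fun V' hV' => h2 V' ⟨hV'.sub, hV'.comp⟩, h3, h4⟩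

lemma isLargest_ofOld {D : Set ℂ} {δ : ℝ} {X : Pool.Agent.H81.Q1.DDomain}
    (h : Pool.Agent.H4.Lit.IsBig D δ X) : IsLargest D δ (ofOld X) := by
  obtain ⟨V, h1, h2, h3, h4⟩ := h
  exact ⟨V, ⟨h1.sub, h1.comp⟩, fun V' hV' => h2 V' ⟨hV'.sub, hV'.comp⟩, h3, h4⟩

/-- The largest vertex components form an approximating sequence. -/
theorem approx_largest {D : Set ℂ} {a b : ℂ} {φ : ℂ → ℂ} (hD : IsJordanDomain D)
    (h : IsChart D a b φ) (hH : μH[1] (frontier D) < ⊤)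
    (δ : ℕ → ℝ) (X : ℕ → DDomain) (pos : ∀ n, 0 < δ n) (lim : Tendsto δ atTop (𝓝 0))
    (hX : ∀ n, IsLargest D (δ n) (X n))
    (limα : Tendsto (fun n => pt (δ n) (X n).α.1) atTop (𝓝 a))
    (limβ : Tendsto (fun n => pt (δ n) (X n).β.1) atTop (𝓝 b)) :
    ∃ A : Approx D a b (posArc φ b) (negArc φ b), A.δ = δ ∧ A.X = X := by
  obtain ⟨A, h1, h2⟩ := Pool.Agent.H4.Lit.approx_big hD (isChart_old.1 h) hH δ
    (fun n => (X n).old) pos lim (fun n => isLargest_old (hX n)) limα limβ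
  have fill := A.fill
  have sub := A.sub
  have wired := A.wired
  have dual := A.dual
  rw [h1, h2] at fill sub wired dual
  exact ⟨⟨δ, X, pos, lim, fill, sub, limα, limβ, wired, dual⟩, rfl, rfl⟩

theorem final2 (h : Pool.Agent.H82.Q1.Q1SLE) : ∀ D : Set ℂ, IsJordanDomain D →
    ∀ a ∈ frontier D, ∀ b ∈ frontier D, a ≠ b →
    (∃ φ : ℂ → ℂ, IsChart D a b φ) ∧
    (∀ ε > 0, ∃ δ₀ > 0, ∀ δ : ℝ, 0 < δ → δ < δ₀ → ∃ X : DDomain, IsComponent D δ X.V X.E ∧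
      (∀ V E, IsComponent D δ V E → V.ncard ≤ X.V.ncard) ∧
      dist (pt δ X.α.1) a < ε ∧ dist (pt δ X.β.1) b < ε) ∧
    ∃ μ : ProbabilityMeasure Curve, IsSLE 6 D a b μ ∧ (∀ ν, IsSLE 6 D a b ν → ν = μ) ∧
      (∀ (δ : ℕ → ℝ) (X : ℕ → DDomain), (∀ n, 0 < δ n) → Tendsto δ atTop (𝓝 0) →
        (∀ n, IsComponent D (δ n) (X n).V (X n).E) →
        Tendsto (fun n => pt (δ n) (X n).α.1) atTop (𝓝 a) →
        Tendsto (fun n => pt (δ n) (X n).β.1) atTop (𝓝 b) →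
        Tendsto (fun n => (X n).law (δ n)) atTop (𝓝 μ)) ∧
      (∀ φ : ℂ → ℂ, IsChart D a b φ → ∀ A : Approx D a b (posArc φ b) (negArc φ b),
        Tendsto (fun n => (A.X n).law (A.δ n)) atTop (𝓝 μ)) ∧
      (μH[1] (frontier D) < ⊤ →
        (∀ ε > 0, ∃ δ₀ > 0, ∀ δ : ℝ, 0 < δ → δ < δ₀ → ∃ X : DDomain, IsLargest D δ X ∧
          dist (pt δ X.α.1) a < ε ∧ dist (pt δ X.β.1) b < ε) ∧
        ∀ (δ : ℕ → ℝ) (X : ℕ → DDomain), (∀ n, 0 < δ n) → Tendsto δ atTop (𝓝 0) →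
          (∀ n, IsLargest D (δ n) (X n)) →
          Tendsto (fun n => pt (δ n) (X n).α.1) atTop (𝓝 a) →
          Tendsto (fun n => pt (δ n) (X n).β.1) atTop (𝓝 b) →
          Tendsto (fun n => (X n).law (δ n)) atTop (𝓝 μ)) := by
  intro D hD a ha b hb hab
  obtain ⟨⟨φ, hφ⟩, h1, μ, h2, h2', h3, h4⟩ := final h D hD a ha b hb hab
  refine ⟨⟨φ, hφ⟩, h1, μ, h2, h2', h3, h4, fun hH => ⟨?_, ?_⟩⟩
  · intro ε hε
    obtain ⟨δ₀, h5, h6⟩ := Pool.Agent.H4.Lit.exists_big hD hH ha hb hab hε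
    refine ⟨δ₀, h5, fun δ hδ hδ' => ?_⟩
    obtain ⟨X, h7, h8, h9⟩ := h6 δ hδ hδ'
    exact ⟨ofOld X, isLargest_ofOld h7, h8, h9⟩
  · intro δ X pos lim hX limα limβ
    obtain ⟨A, rfl, rfl⟩ := approx_largest hD hφ hH δ X pos lim hX limα limβ
    exact h4 φ hφ A

end Pool.Agent.H4.PS
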