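import Pool.Agent.H4.PS.Bridge

set_option autoImplicit false
open Set Topology MeasureTheory Filter ProbabilityTheory
open scoped unitInterval NNReal

/-! # Transport of the uniqueness of the law of chordal SLE -/

namespace Pool.Agent.H4.PS

/-- The identification of the two spaces of curves, inverse. -/
noncomputable def vc (c : Curve) : Pool.Agent.H81.Q1.Curve :=
  SeparationQuotient.lift (X := PCurve) (fun p => Pool.Agent.H81.Q1.Curve.mk ⟨p.toC⟩)
    (fun p q h => by
      have h1 : dist p q = 0 := Metric.inseparable_iff.1 h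
      have h2 : dist (⟨p.toC⟩ : Pool.Agent.H81.Q1.PCurve) ⟨q.toC⟩ = 0 := h1
      exact SeparationQuotient.mk_eq_mk.2 (Metric.inseparable_iff.2 h2)) c

lemma vc_mk (p : PCurve) : vc (Curve.mk p) = Pool.Agent.H81.Q1.Curve.mk ⟨p.toC⟩ := rfl

lemma cv_vc (c : Curve) : cv (vc c) = c := by
  obtain ⟨p, rfl⟩ := SeparationQuotient.surjective_mk c
  rfl

lemma isometry_vc : Isometry vc := by
  refine Isometry.of_dist_eq fun c c' => ?_
  obtain ⟨p, rfl⟩ := SeparationQuotient.surjective_mk c
  obtain ⟨q, rfl⟩ := SeparationQuotient.surjective_mk c'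
  exact (SeparationQuotient.dist_mk (⟨p.toC⟩ : Pool.Agent.H81.Q1.PCurve) ⟨q.toC⟩).trans
    (SeparationQuotient.dist_mk p q).symm

lemma continuous_vc : Continuous vc := isometry_vc.continuous

lemma measurable_vc : Measurable vc := continuous_vc.measurable

lemma map_cv_vc (ν : ProbabilityMeasure Curve) :
    (ν.map continuous_vc.aemeasurable).map continuous_cv.aemeasurable = ν := by
  apply Subtype.ext
  change ((ν : Measure Curve).map vc).map cv = ν
  rw [Measure.map_map measurable_cv measurable_vc]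
  have : cv ∘ vc = id := funext cv_vc
  rw [this, Measure.map_id]

/-- The laws of chordal SLE agree, the other direction. -/
theorem isSLE_old {κ : ℝ} {D : Set ℂ} {a b : ℂ} {ν : ProbabilityMeasure Curve}
    (h : IsSLE κ D a b ν) :
    Pool.Agent.H82.Q1.IsSLE κ D a b (ν.map continuous_vc.aemeasurable) := by
  intro φ hφ
  obtain ⟨Ω, m, P, hP, B, η, c, h1, h2, h3, h4, h5⟩ := h φ (isChart_old.2 hφ)
  refine ⟨Ω, m, P, hP, B, η, fun ω => ⟨(c ω).toC⟩, h1, ?_, ?_, ?_, ?_⟩
  · filter_upwards [h2] with ω hω using ⟨hω.cont, hω.mem, hω.zero, hω.hull⟩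
  · filter_upwards [h3] with ω hω using ⟨hω.1, hω.2⟩
  · exact measurable_vc.comp_aemeasurable h4
  · change P.map (fun ω => Pool.Agent.H81.Q1.Curve.mk ⟨(c ω).toC⟩) = ((ν : Measure _).map vc)
    rw [← h5, AEMeasurable.map_map_of_aemeasurable measurable_vc.aemeasurable h4]
    rfl

/-- Uniqueness of the law of SLE in the old definitions gives uniqueness in the new ones. -/
theorem unique_of_old {κ : ℝ} {D : Set ℂ} {a b : ℂ}
    (h : ∀ ν ν' : ProbabilityMeasure Pool.Agent.H81.Q1.Curve,
      Pool.Agent.H82.Q1.IsSLE κ D a b ν → Pool.Agent.H82.Q1.IsSLE κ D a b ν' → ν = ν')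
    {μ ν : ProbabilityMeasure Curve} (hμ : IsSLE κ D a b μ) (hν : IsSLE κ D a b ν) : ν = μ := by
  rw [← map_cv_vc ν, ← map_cv_vc μ, h _ _ (isSLE_old hν) (isSLE_old hμ)]

end Pool.Agent.H4.PS
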